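import Pool.Agent.H93RH.Even

open MvPolynomial

namespace Pool.Agent.Results.MP_c4d6c8_mp.Evenness

open Pool.Agent.H93RH

/-- Evenness of normal-form deformations of the Riemann hierarchy (Arsie–Lorenzoni–Moro). -/
theorem result (P : ℕ → EDP) (hP : IsDeformation P) (hN : NormalForm (P 1)) (hc : c2 (P 1) ≠ 0) :
    ∀ k, Odd k → PowerSeries.coeff k (P 1) = 0 := by
  have : CharZero (FractionRing (PowerSeries ℂ)) :=
    charZero_of_injective_ringHom
      (((algebraMap (PowerSeries ℂ) (FractionRing (PowerSeries ℂ))).comp (PowerSeries.C (R := ℂ))).injective)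
  exact main_thm (K := FractionRing (PowerSeries ℂ)) (algebraMap (PowerSeries ℂ) (FractionRing (PowerSeries ℂ)))
    (IsFractionRing.injective (PowerSeries ℂ) (FractionRing (PowerSeries ℂ))) P hP hN hc

end Pool.Agent.Results.MP_c4d6c8_mp.Evenness
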